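import Pool.Agent.Q165.VN.Plane
import Pool.Agent.Q241.VN.Tree
import Pool.Agent.Q241.VN.Inner
import Pool.Agent.Q154.VN.VOL
import Pool.Agent.Q154.VN.LOWER
import Pool.Agent.Q164.VN.TRANS
import Pool.Agent.Q164.VN.ONE

/-!
# MP_a20b56_co: volumetric weak epsilon-nets in dimensions one and two

On the line the admissible exponents are exactly the `α ≥ 1`; in the plane every `α ≥ 2` is
admissible, and every admissible exponent is at least `1`.
-/

set_option autoImplicit false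

namespace Pool.Agent.Results.MP_a20b56_co.LineAndPlane

open Pool.Agent.Q165.VN

/-- a larger exponent than an admissible one is admissible -/
theorem mono {d : ℕ} {α β : ℝ} (h : Admissible d α) (hab : α ≤ β) : Admissible d β := by
  obtain ⟨v, C, hv, h⟩ := h
  refine ⟨v, max C 0, hv, ?_⟩
  intro ε h0 h1 ι _ _ F hF hF1
  obtain ⟨S, hS, hc⟩ := h ε h0 h1 ι F hF hF1
  refine ⟨S, hS, hc.trans ?_⟩
  have h2 : ε ^ (-α) ≤ ε ^ (-β) :=
    Real.rpow_le_rpow_of_exponent_ge h0 h1 (by linarith)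
  have h3 : 0 ≤ ε ^ (-α) := Real.rpow_nonneg h0.le _
  calc C * ε ^ (-α) ≤ max C 0 * ε ^ (-α) := mul_le_mul_of_nonneg_right (le_max_left _ _) h3
    _ ≤ max C 0 * ε ^ (-β) := mul_le_mul_of_nonneg_left h2 (le_max_right _ _)

theorem result :
    (∀ α : ℝ, Admissible 1 α ↔ 1 ≤ α) ∧
    (∀ α : ℝ, (2 ≤ α → Admissible 2 α) ∧ (Admissible 2 α → 1 ≤ α)) := by
  have h1 : Admissible 1 1 := Pool.Agent.Q164.VN.one
  have h2 : Admissible 2 2 := Pool.Agent.Q164.VN.trans Pool.Agent.Q241.VN.INNER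
    Pool.Agent.Q154.VN.vol (plane Pool.Agent.Q241.VN.TREE)
  refine ⟨fun α => ⟨fun h => Pool.Agent.Q154.VN.lower 1 α one_pos h, fun h => mono h1 h⟩,
    fun α => ⟨fun h => mono h2 h, fun h => Pool.Agent.Q154.VN.lower 2 α two_pos h⟩⟩

end Pool.Agent.Results.MP_a20b56_co.LineAndPlane
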